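import Mathlib
import Pool.Agent.H21.Cl1

namespace Pool.Agent.Results.MP_2df8e9_al.Yes

universe u

/-- The bracket of `L_{n+1}` on `F^{n+1}`: the alternating `n`-linear map sending the basis vectors
with the `i`-th one omitted (`i` counted from `1`) to `(-1)^(n+i+1) e_i`. -/
def br {F : Type u} [Field F] {n : ℕ} (v : Fin n → Fin (n + 1) → F) : Fin (n + 1) → F :=
  fun i => (-1) ^ (n + (i.1 + 1) + 1) * Matrix.det (Matrix.of fun k l => v k (i.succAbove l))

theorem result (F : Type u) [Field F] [IsAlgClosed F] [CharZero F] (n : ℕ) (hn : Odd n)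
    (h3 : 3 ≤ n) :
    ∃ (A : Type u) (_ : Ring A) (_ : Algebra F A) (j : (Fin (n + 1) → F) →ₗ[F] A),
      Function.Injective j ∧ ∀ v : Fin n → Fin (n + 1) → F, j (br v) =
        ∑ σ : Equiv.Perm (Fin n), Equiv.Perm.sign σ • (List.ofFn fun k => j (v (σ k))).prod := by
  obtain ⟨m, rfl⟩ : ∃ m, n = m + 1 := ⟨n - 1, by omega⟩
  have hm : Even m := by simpa [Nat.odd_add_one] using hn
  obtain ⟨A, _, _, x, h1, h2⟩ := Pool.Agent.H21.Cl.main F m hm (by omega)
  let j := Fintype.linearCombination F x
  let B : (Fin (m + 1 + 1) → F) [⋀^Fin (m + 1)]→ₗ[F] (Fin (m + 1 + 1) → F) :=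
    AlternatingMap.pi fun i => ((-1 : F) ^ (m + 1 + (i.1 + 1) + 1)) •
      Matrix.detRowAlternating.compLinearMap (LinearMap.funLeft F F i.succAbove)
  let C := MultilinearMap.alternatization
    ((MultilinearMap.mkPiAlgebraFin F (m + 1) A).compLinearMap fun _ => j)
  have hC : ∀ v, C v = ∑ σ : Equiv.Perm (Fin (m + 1)),
      Equiv.Perm.sign σ • (List.ofFn fun k => j (v (σ k))).prod := fun v => by
    simp [C, MultilinearMap.alternatization_apply, -List.ofFn_succ]
  have key : j.compAlternatingMap B = C := by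
    refine (Pi.basisFun F _).ext_alternating fun w hw => ?_
    obtain ⟨i, hi⟩ : ∃ i, i ∉ Set.range w := by
      by_contra! h
      simpa using Fintype.card_le_of_surjective w h
    choose τ hτ using fun k => Fin.exists_succAbove_eq (show w k ≠ i from fun h => hi ⟨k, h⟩)
    have hτ' : Function.Bijective τ := Finite.injective_iff_bijective.1 fun a b h =>
      hw (by rw [← hτ, h, hτ])
    rw [show (fun k => Pi.basisFun F _ (w k)) = (fun k => Pi.basisFun F _ (i.succAbove k)) ∘
      Equiv.ofBijective τ hτ' from funext fun k => by simp [hτ], AlternatingMap.map_perm,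
      AlternatingMap.map_perm, hC]
    congr 1
    have hB : B (fun k => Pi.basisFun F _ (i.succAbove k)) = (-1 : F) ^ (i.1 + 1) • Pi.single i 1 := by
      funext l
      change (-1 : F) ^ (m + 1 + (l.1 + 1) + 1) • Matrix.det
        (Matrix.of fun a b => Pi.basisFun F _ (i.succAbove a) (l.succAbove b)) = _
      by_cases h : l = i
      · subst h
        rw [show (Matrix.of fun a b => Pi.basisFun F _ (l.succAbove a) (l.succAbove b)) = 1 by
          ext a b; simp [Pi.single_apply, Matrix.one_apply, eq_comm]]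
        simp [pow_add, hm.neg_one_pow]
      · obtain ⟨b, hb⟩ := Fin.exists_succAbove_eq (Ne.symm h)
        rw [Matrix.det_eq_zero_of_column_eq_zero b (by simp [hb, Pi.single_apply])]
        simp [h]
    have := h2 i
    rw [show (-1 : A) ^ (i.1 + 1) = algebraMap F A ((-1) ^ (i.1 + 1)) by simp,
      ← Algebra.smul_def] at this
    rw [LinearMap.compAlternatingMap_apply, hB, map_smul]
    simpa [j, Pool.Agent.H21.Cl.alt, Pool.Agent.H21.Cl.pr, -List.ofFn_succ] using this.symm
  exact ⟨A, inferInstance, inferInstance, j, h1.fintypeLinearCombination_injective,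
    fun v => (DFunLike.congr_fun key v).trans (hC v)⟩

end Pool.Agent.Results.MP_2df8e9_al.Yes
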